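import Mathlib.Combinatorics.SimpleGraph.Subgraph
import Mathlib.Data.Sym.Card
import Mathlib.Data.Real.Basic
import Mathlib.Data.Nat.Sqrt
import Mathlib.Tactic

/-!
# The product of the maximum average degrees of a graph and its complement
-/

namespace Pool.Agent.Results.MP_0f9677_co.ExactProduct

open Finset

/-! ## Numerical part -/

/-- `n * (value of the clique type graph with x = t + 1)`, where `m = n - 1`. -/
def gg (m t : ℤ) : ℤ := t * (m - t) * (m + 1 + t)

/-- The optimal `t`. -/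
def opt (m : ℕ) : ℕ := (1 + Nat.sqrt (12 * (m * (m + 1)) + 1)) / 6

theorem opt_lower (m : ℕ) : 3 * (opt m : ℤ) ^ 2 - opt m ≤ m * (m + 1) := by
  have h1 : 6 * opt m ≤ 1 + Nat.sqrt (12 * (m * (m + 1)) + 1) := Nat.mul_div_le _ _
  have h2 : Nat.sqrt (12 * (m * (m + 1)) + 1) * Nat.sqrt (12 * (m * (m + 1)) + 1) ≤
      12 * (m * (m + 1)) + 1 := Nat.sqrt_le _
  generalize Nat.sqrt (12 * (m * (m + 1)) + 1) = s at h1 h2
  generalize opt m = t at h1
  zify at h1 h2
  rcases Nat.eq_zero_or_pos t with h0 | h0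
  · rw [h0]
    push_cast
    nlinarith [Int.natCast_nonneg m]
  · zify at h0
    nlinarith

theorem opt_upper (m : ℕ) : (m : ℤ) * (m + 1) < 3 * (opt m : ℤ) ^ 2 + 5 * opt m + 2 := by
  have h1 : 1 + Nat.sqrt (12 * (m * (m + 1)) + 1) < 6 * (opt m + 1) := by
    unfold opt
    omega
  have h2 : 12 * (m * (m + 1)) + 1 < (Nat.sqrt (12 * (m * (m + 1)) + 1) + 1) *
      (Nat.sqrt (12 * (m * (m + 1)) + 1) + 1) := Nat.lt_succ_sqrt _
  generalize Nat.sqrt (12 * (m * (m + 1)) + 1) = s at h1 h2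
  generalize opt m = t at h1
  zify at h1 h2
  nlinarith

theorem gg_le_opt (m : ℕ) (t : ℤ) (ht : 0 ≤ t) : gg m t ≤ gg m (opt m) := by
  have h1 := opt_lower m
  have h2 := opt_upper m
  have h0 : (0 : ℤ) ≤ opt m := Int.natCast_nonneg _
  generalize (opt m : ℤ) = s at h0 h1 h2
  have e : gg m s - gg m t =
      (s - t) * ((m : ℤ) * (m + 1) - (s + t) - (s ^ 2 + s * t + t ^ 2)) := by
    unfold gg; ring
  rcases lt_trichotomy t s with h | h | h
  · have h3 : 0 ≤ (m : ℤ) * (m + 1) - (s + t) - (s ^ 2 + s * t + t ^ 2) := by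
      nlinarith
    have := mul_nonneg (by linarith : 0 ≤ s - t) h3
    linarith
  · rw [h]
  · have h3 : 0 ≤ -((m : ℤ) * (m + 1) - (s + t) - (s ^ 2 + s * t + t ^ 2)) := by
      nlinarith
    have := mul_nonneg (by linarith : 0 ≤ t - s) h3
    nlinarith

theorem opt_le (m : ℕ) : opt m ≤ m := by
  have h1 := opt_lower m
  by_contra h
  have h : m + 1 ≤ opt m := by omega
  generalize opt m = s at h1 h
  zify at h
  have := Int.natCast_nonneg m
  nlinarith

/-- A value which is close enough to the optimum. -/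
theorem good_t (m : ℤ) (hm : 8 ≤ m) : ∃ t : ℤ, 0 ≤ t ∧ 9 * m ^ 2 * (m + 1) ≤ 25 * gg m t := by
  refine ⟨(4 * m + 3) / 7, by omega, ?_⟩
  obtain ⟨s, hs⟩ : ∃ s, s = 7 * ((4 * m + 3) / 7) - 4 * m := ⟨_, rfl⟩
  have hs1 : -3 ≤ s := by omega
  have hs2 : s ≤ 3 := by omega
  generalize (4 * m + 3) / 7 = t at hs
  have key : 343 * (25 * gg m t - 9 * m ^ 2 * (m + 1)) =
      213 * m ^ 3 + (25 * s - 987) * m ^ 2 - 25 * (7 * s + 12 * s ^ 2) * m
        - 25 * (7 * s ^ 2 + s ^ 3) := by
    rw [hs]; unfold gg; ring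
  have h2 : 0 ≤ 213 * m ^ 3 + (25 * s - 987) * m ^ 2 - 25 * (7 * s + 12 * s ^ 2) * m
        - 25 * (7 * s ^ 2 + s ^ 3) := by
    obtain ⟨k, rfl⟩ : ∃ k, m = 8 + k := ⟨m - 8, by ring⟩
    have hk : 0 ≤ k := by linarith
    clear key hs
    interval_cases s <;> ring_nf <;> positivity
  linarith

theorem quartic (m A : ℝ) (hm : 0 ≤ m) (hA : 0 ≤ A) :
    50 * (m - A) * (A + 1) * A ^ 2 ≤ 9 * m ^ 2 * (2 * A ^ 2 - 2 * A * m + m ^ 2 + m) := by
  have h1 : 50 * (m - A) * A ^ 3 ≤ 9 * m ^ 2 * (2 * A ^ 2 - 2 * A * m + m ^ 2) := by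
    nlinarith [sq_nonneg (50 * A ^ 2 - 25 * A * m - 6 * m ^ 2), sq_nonneg (m * (35 * A - 24 * m)),
      sq_nonneg (m ^ 2)]
  have h2 : 50 * (m - A) * A ^ 2 ≤ 9 * m ^ 3 := by
    nlinarith [mul_nonneg hA (sq_nonneg (3 * A - 2 * m)), mul_nonneg hm (sq_nonneg (3 * A - 2 * m)),
      pow_nonneg hm 3, pow_nonneg hA 3, mul_nonneg hA (sq_nonneg m)]
  nlinarith

/-- The interior case for large `n`. -/
theorem interior (n a b : ℝ) (hn : 2 ≤ n) (hab : a ≤ b) (hb : b ≤ n) (ha : 1 ≤ a)
    (hsum : n ≤ a + b)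
    (hτ : n * (n - 1) - 2 * (n - a) * (n - b) ≤ 2 * a * (a - 1)) :
    25 * (n * (n - 1) - 2 * (n - a) * (n - b)) ^ 2 ≤ 36 * (a * b) * (n - 1) ^ 2 := by
  have h2a : n ≤ 2 * a := by
    by_contra h
    have h : 2 * a < n := not_le.1 h
    nlinarith [mul_nonneg (by linarith : 0 ≤ n - a) (by linarith : 0 ≤ a + b - n),
      mul_pos (by linarith : 0 < n - 1) (by linarith : 0 < n - 2 * a)]
  -- the quadratic in `b`
  set Q : ℝ → ℝ := fun b => 36 * (a * b) * (n - 1) ^ 2 -
    25 * (n * (n - 1) - 2 * (n - a) * (n - b)) ^ 2 with hQ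
  have hconc : ∀ b1 b2, (b2 - b1) * Q b = (b2 - b) * Q b1 + (b - b1) * Q b2 +
      100 * (n - a) ^ 2 * ((b - b1) * (b2 - b) * (b2 - b1)) := by
    intro b1 b2
    simp only [hQ]
    ring
  have hQa : 0 ≤ Q a := by
    have e : Q a = (6 * a * (n - 1) - 5 * (n * (n - 1) - 2 * (n - a) * (n - a))) *
        (6 * a * (n - 1) + 5 * (n * (n - 1) - 2 * (n - a) * (n - a))) := by
      simp only [hQ]; ring
    have hτa : 0 ≤ n * (n - 1) - 2 * (n - a) * (n - a) := by
      nlinarith [mul_nonneg (by linarith : 0 ≤ n - a) (by linarith : 0 ≤ 2 * a - n)]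
    rw [e]
    apply mul_nonneg
    · nlinarith [sq_nonneg (10 * a - (7 * n + 3))]
    · have : 0 ≤ 6 * a * (n - 1) := by
        apply mul_nonneg <;> linarith
      linarith
  suffices h : 0 ≤ Q b by
    simp only [hQ] at h
    linarith
  rcases eq_or_lt_of_le (hab.trans hb) with han | han
  · have : b = a := le_antisymm (by linarith) hab
    rw [this]
    exact hQa
  rcases le_or_gt (n * (n - 1)) (2 * a * (a - 1)) with hc | hc
  · have hQn : 0 ≤ Q n := by
      have e : Q n = n * (n - 1) ^ 2 * (36 * a - 25 * n) := by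
        simp only [hQ]; ring
      rw [e]
      have : 0 ≤ 36 * a - 25 * n := by
        by_contra h
        have h : 36 * a < 25 * n := by linarith
        nlinarith
      have h2 : 0 ≤ n * (n - 1) ^ 2 := mul_nonneg (by linarith) (sq_nonneg _)
      exact mul_nonneg h2 this
    have h := hconc a n
    have h1 : 0 ≤ (n - a) * Q b := by
      rw [h]
      have k1 := mul_nonneg (by linarith : 0 ≤ n - b) hQa
      have k2 := mul_nonneg (by linarith : 0 ≤ b - a) hQn
      have k3 : 0 ≤ 100 * (n - a) ^ 2 * ((b - a) * (n - b) * (n - a)) := by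
        apply mul_nonneg
        · positivity
        · apply mul_nonneg
          · apply mul_nonneg <;> linarith
          · linarith
      linarith
    by_contra hneg
    have := mul_neg_of_pos_of_neg (by linarith : 0 < n - a) (not_le.1 hneg)
    linarith
  · set b2 : ℝ := (2 * a * (a - 1) + n * (n + 1 - 2 * a)) / (2 * (n - a)) with hb2
    have hc0 : 0 < 2 * (n - a) := by linarith
    have hb2' : 2 * (n - a) * b2 = 2 * a * (a - 1) + n * (n + 1 - 2 * a) := by
      rw [hb2]; field_simp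
    have hbb2 : b ≤ b2 := by
      rw [hb2, le_div_iff₀ hc0]
      nlinarith
    have hτ2 : n * (n - 1) - 2 * (n - a) * (n - b2) = 2 * a * (a - 1) := by
      linear_combination hb2'
    have hQb2 : 0 ≤ Q b2 := by
      have hq := quartic (n - 1) (a - 1) (by linarith) (by linarith)
      have e1 : 9 * (n - 1) ^ 2 * (2 * (a - 1) ^ 2 - 2 * (a - 1) * (n - 1) + (n - 1) ^ 2 + (n - 1)) =
          9 * (n - 1) ^ 2 * (2 * (n - a) * b2) := by
        rw [hb2']; ring
      rw [e1] at hq
      have e2 : 50 * (n - 1 - (a - 1)) * (a - 1 + 1) * (a - 1) ^ 2 =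
          2 * (n - a) * (25 * (a * (a - 1) ^ 2)) := by ring
      rw [e2] at hq
      have e3 : 9 * (n - 1) ^ 2 * (2 * (n - a) * b2) = 2 * (n - a) * (9 * (n - 1) ^ 2 * b2) := by
        ring
      rw [e3] at hq
      have hq2 := le_of_mul_le_mul_left hq hc0
      have e : Q b2 = 4 * a * (9 * (n - 1) ^ 2 * b2 - 25 * (a * (a - 1) ^ 2)) := by
        simp only [hQ, hτ2]; ring
      rw [e]
      apply mul_nonneg <;> linarith
    rcases eq_or_lt_of_le (hab.trans hbb2) with hab2 | hab2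
    · have : b = a := le_antisymm (by linarith) hab
      rw [this]
      exact hQa
    have h := hconc a b2
    have h1 : 0 ≤ (b2 - a) * Q b := by
      rw [h]
      have k1 := mul_nonneg (by linarith : 0 ≤ b2 - b) hQa
      have k2 := mul_nonneg (by linarith : 0 ≤ b - a) hQb2
      have k3 : 0 ≤ 100 * (n - a) ^ 2 * ((b - a) * (b2 - b) * (b2 - a)) := by
        apply mul_nonneg
        · positivity
        · apply mul_nonneg
          · apply mul_nonneg <;> linarith
          · linarith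
      linarith
    by_contra hneg
    have := mul_neg_of_pos_of_neg (by linarith : 0 < b2 - a) (not_le.1 hneg)
    linarith

/-- The check for the small cases. -/
def chk (n a b : ℕ) : Bool :=
  decide (n < 3) || decide (a + b < n + 2) ||
    decide (2 * (n - a) * (n - b) + 2 * (a * (a - 1)) ≤ n * (n - 1)) ||
    decide (2 * (n - a) * (n - b) + 2 * (b * (b - 1)) ≤ n * (n - 1)) ||
    decide ((n * (n - 1) - 2 * (n - a) * (n - b)) ^ 2 * n ≤
      4 * (a * b) * (((4 * n - 1) / 7) * (n - 1 - (4 * n - 1) / 7) * (n + (4 * n - 1) / 7)))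

theorem chk_true : ∀ n < 9, ∀ a < n + 1, ∀ b < n + 1, chk n a b = true := by
  decide +kernel

/-- The small cases. -/
theorem small_case (n : ℕ) (h1 : n < 9) (a : ℕ) (h2 : a < n + 1) (b : ℕ) (h3 : b < n + 1)
    (h4 : 3 ≤ n) (h5 : n + 2 ≤ a + b)
    (h6 : n * (n - 1) < 2 * (n - a) * (n - b) + 2 * (a * (a - 1)))
    (h7 : n * (n - 1) < 2 * (n - a) * (n - b) + 2 * (b * (b - 1))) :
    (n * (n - 1) - 2 * (n - a) * (n - b)) ^ 2 * n ≤
      4 * (a * b) * (((4 * n - 1) / 7) * (n - 1 - (4 * n - 1) / 7) * (n + (4 * n - 1) / 7)) := by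
  have h := chk_true n h1 a h2 b h3
  unfold chk at h
  rw [Bool.or_eq_true, Bool.or_eq_true, Bool.or_eq_true, Bool.or_eq_true, decide_eq_true_eq,
    decide_eq_true_eq, decide_eq_true_eq, decide_eq_true_eq, decide_eq_true_eq] at h
  rcases h with (((h | h) | h) | h) | h
  · omega
  · omega
  · exact absurd h6 (not_lt.2 h)
  · exact absurd h7 (not_lt.2 h)
  · exact h

/-- The case in which `A` may be taken to be a clique. -/
theorem clique_case (n a b P Q : ℤ) (ha : 1 ≤ a) (han : a ≤ n) (hbn : b ≤ n)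
    (hP0 : 0 ≤ P) (hP : P ≤ a * (a - 1))
    (hPQ : P + Q ≤ n * (n - 1) - 2 * (n - a) * (n - b))
    (hτ : 2 * (a * (a - 1)) ≤ n * (n - 1) - 2 * (n - a) * (n - b)) :
    P * Q * n ≤ a * b * gg (n - 1) (a - 1) := by
  have h1 : P * Q ≤ a * (a - 1) * ((n - a) * (2 * b + a - n - 1)) := by
    have k1 : P * Q ≤ P * (n * (n - 1) - 2 * (n - a) * (n - b) - P) :=
      mul_le_mul_of_nonneg_left (by linarith) hP0
    have k2 := mul_nonneg (sub_nonneg.2 hP)
      (by linarith : 0 ≤ n * (n - 1) - 2 * (n - a) * (n - b) - a * (a - 1) - P)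
    have k3 : (a * (a - 1) - P) * (n * (n - 1) - 2 * (n - a) * (n - b) - a * (a - 1) - P) =
      a * (a - 1) * ((n - a) * (2 * b + a - n - 1)) -
        P * (n * (n - 1) - 2 * (n - a) * (n - b) - P) := by ring
    linarith
  have h2 : n * (2 * b + a - n - 1) ≤ b * (n + a - 1) := by
    nlinarith [mul_nonneg (sub_nonneg.2 hbn) (by linarith : 0 ≤ n - a + 1)]
  have h3 : 0 ≤ a * (a - 1) * (n - a) := by
    apply mul_nonneg
    · apply mul_nonneg <;> linarith
    · linarith
  calc P * Q * n ≤ a * (a - 1) * ((n - a) * (2 * b + a - n - 1)) * n :=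
        mul_le_mul_of_nonneg_right h1 (by linarith)
    _ = a * (a - 1) * (n - a) * (n * (2 * b + a - n - 1)) := by ring
    _ ≤ a * (a - 1) * (n - a) * (b * (n + a - 1)) := mul_le_mul_of_nonneg_left h2 h3
    _ = a * b * gg (n - 1) (a - 1) := by unfold gg; ring

/-- The interior case. -/
theorem interior_case (m : ℕ) (n a b P Q : ℤ) (hnm : n = m + 1) (ha : 1 ≤ a) (hab : a ≤ b)
    (hbn : b ≤ n) (hsum : n + 2 ≤ a + b) (hP : 0 ≤ P) (hQ : 0 ≤ Q)
    (hP2 : P % 2 = 0) (hQ2 : Q % 2 = 0)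
    (hPQ : P + Q ≤ n * (n - 1) - 2 * (n - a) * (n - b))
    (hτa : n * (n - 1) - 2 * (n - a) * (n - b) < 2 * (a * (a - 1)))
    (hτb : n * (n - 1) - 2 * (n - a) * (n - b) < 2 * (b * (b - 1))) :
    P * Q * n ≤ a * b * gg m (opt m) := by
  have hn0 : 0 ≤ n := by rw [hnm]; positivity
  have h4 : 4 * (P * Q) ≤ (n * (n - 1) - 2 * (n - a) * (n - b)) ^ 2 := by
    nlinarith [sq_nonneg (P - Q), mul_nonneg (add_nonneg hP hQ) (sub_nonneg.2 hPQ),
      sq_nonneg (n * (n - 1) - 2 * (n - a) * (n - b) - (P + Q))]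
  have hab0 : 0 ≤ a * b := mul_nonneg (by linarith) (by linarith)
  rcases le_or_gt 9 n with h9 | h9
  · obtain ⟨t, ht0, ht⟩ := good_t m (by omega)
    have h5 := gg_le_opt m t ht0
    have h6 : 25 * (n * (n - 1) - 2 * (n - a) * (n - b)) ^ 2 ≤ 36 * (a * b) * (n - 1) ^ 2 := by
      have := interior (n : ℝ) a b (by exact_mod_cast (by linarith : (2 : ℤ) ≤ n))
        (by exact_mod_cast hab) (by exact_mod_cast hbn) (by exact_mod_cast ha)
        (by exact_mod_cast (by linarith : n ≤ a + b))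
        (by
          have : n * (n - 1) - 2 * (n - a) * (n - b) ≤ 2 * a * (a - 1) := by linarith
          exact_mod_cast this)
      exact_mod_cast this
    have h7 : 9 * (n - 1) ^ 2 * n ≤ 25 * gg m (opt m) := by
      have e : n - 1 = m := by rw [hnm]; ring
      rw [e]
      have e2 : (9 : ℤ) * m ^ 2 * n = 9 * m ^ 2 * (m + 1) := by rw [hnm]
      rw [e2]
      linarith
    have h8 := mul_le_mul_of_nonneg_left h7 hab0
    have h10 := mul_le_mul_of_nonneg_right h6 hn0
    have h11 := mul_le_mul_of_nonneg_right h4 hn0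
    linarith
  · have h3 : 2 ≤ n := by linarith
    rcases eq_or_lt_of_le h3 with h3 | h3
    · have ha' : a = 2 := by linarith
      have hb' : b = 2 := by linarith
      subst ha' hb'
      rw [← h3] at hPQ
      norm_num at hPQ
      have : P = 0 ∨ Q = 0 := by omega
      have hz : P * Q = 0 := by
        rcases this with h | h <;> rw [h] <;> ring
      rw [hz, zero_mul]
      have h5 := gg_le_opt m 0 le_rfl
      have h6 : gg m 0 = 0 := by unfold gg; ring
      rw [h6] at h5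
      positivity
    · obtain ⟨n', rfl⟩ := Int.eq_ofNat_of_zero_le hn0
      obtain ⟨a', rfl⟩ := Int.eq_ofNat_of_zero_le (by linarith : 0 ≤ a)
      obtain ⟨b', rfl⟩ := Int.eq_ofNat_of_zero_le (by linarith : 0 ≤ b)
      have c1 : a' ≤ n' := by omega
      have c2 : b' ≤ n' := by omega
      have c3 : 1 ≤ n' := by omega
      have c4 : 1 ≤ a' := by omega
      have c5 : 1 ≤ b' := by omega
      have e1 : ((n' - a' : ℕ) : ℤ) = n' - a' := by omega
      have e2 : ((n' - b' : ℕ) : ℤ) = n' - b' := by omega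
      have e3 : ((n' - 1 : ℕ) : ℤ) = n' - 1 := by omega
      have e4 : ((a' - 1 : ℕ) : ℤ) = a' - 1 := by omega
      have e5 : ((b' - 1 : ℕ) : ℤ) = b' - 1 := by omega
      have hτ0 : (0 : ℤ) ≤ n' * (n' - 1) - 2 * (n' - a') * (n' - b') := by
        linarith
      have hle : 2 * (n' - a') * (n' - b') ≤ n' * (n' - 1) := by
        zify [c1, c2, c3]
        linarith
      have hs := small_case n' (by omega) a' (by omega) b' (by omega) (by omega) (by omega)
        (by zify [c1, c2, c3, c4]; linarith) (by zify [c1, c2, c3, c5]; linarith)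
      have hs' : ((n' : ℤ) * (n' - 1) - 2 * (n' - a') * (n' - b')) ^ 2 * n' ≤
          4 * (a' * b') * gg m (((4 * n' - 1) / 7 : ℕ) : ℤ) := by
        have := (Nat.cast_le (α := ℤ)).2 hs
        push_cast [Nat.cast_sub hle, e1, e2, e3] at this
        have e6 : ((n' - 1 - (4 * n' - 1) / 7 : ℕ) : ℤ) = n' - 1 - ((4 * n' - 1) / 7 : ℕ) := by
          omega
        rw [e6] at this
        unfold gg
        have e7 : (m : ℤ) = n' - 1 := by linarith
        rw [e7]
        refine this.trans (le_of_eq ?_)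
        push_cast
        ring
      have h5 := gg_le_opt m (((4 * n' - 1) / 7 : ℕ) : ℤ) (Int.natCast_nonneg _)
      have h8 := mul_le_mul_of_nonneg_left h5 hab0
      have h11 := mul_le_mul_of_nonneg_right h4 hn0
      linarith

theorem main_ineq (m : ℕ) (n a b P Q : ℤ) (hnm : n = m + 1) (ha : 1 ≤ a) (hb : 1 ≤ b)
    (han : a ≤ n) (hbn : b ≤ n) (hP : 0 ≤ P) (hQ : 0 ≤ Q) (hPa : P ≤ a * (a - 1))
    (hQb : Q ≤ b * (b - 1)) (hP2 : P % 2 = 0) (hQ2 : Q % 2 = 0)
    (hPQ : n ≤ a + b → P + Q ≤ n * (n - 1) - 2 * (n - a) * (n - b)) :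
    P * Q * n ≤ a * b * gg m (opt m) := by
  have hab0 : 0 ≤ a * b := mul_nonneg (by linarith) (by linarith)
  have hn0 : 0 ≤ n := by linarith
  have hm : (m : ℤ) = n - 1 := by linarith
  rcases le_or_gt (a + b) (n + 1) with hs | hs
  · have h1 : P * Q ≤ a * (a - 1) * (b * (b - 1)) :=
      mul_le_mul hPa hQb hQ (mul_nonneg (by linarith) (by linarith))
    have h2 : (a - 1) * (b - 1) * n ≤ gg m (a - 1) := by
      rw [hm]
      unfold gg
      have k1 : (b - 1) * n ≤ (n - 1 - (a - 1)) * (n - 1 + 1 + (a - 1)) :=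
        mul_le_mul (by linarith) (by linarith) hn0 (by linarith)
      have := mul_le_mul_of_nonneg_left k1 (by linarith : 0 ≤ a - 1)
      linarith
    have h3 := gg_le_opt m (a - 1) (by linarith)
    have h4 := mul_le_mul_of_nonneg_left (h2.trans h3) hab0
    have h5 := mul_le_mul_of_nonneg_right h1 hn0
    nlinarith
  · have hPQ := hPQ (by linarith)
    rcases le_or_gt (2 * (a * (a - 1))) (n * (n - 1) - 2 * (n - a) * (n - b)) with hc | hc
    · have h1 := clique_case n a b P Q ha han hbn hP hPa hPQ hc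
      have h3 := gg_le_opt m (a - 1) (by linarith)
      rw [hm] at h3
      have h4 := mul_le_mul_of_nonneg_left h3 hab0
      rw [hm]
      linarith
    rcases le_or_gt (2 * (b * (b - 1))) (n * (n - 1) - 2 * (n - a) * (n - b)) with hd | hd
    · have h1 := clique_case n b a Q P hb hbn han hQ hQb (by linarith) (by linarith)
      have h3 := gg_le_opt m (b - 1) (by linarith)
      rw [hm] at h3
      have h4 := mul_le_mul_of_nonneg_left h3 hab0
      rw [hm]
      linarith
    rcases le_total a b with hab | hab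
    · exact interior_case m n a b P Q hnm ha hab hbn (by linarith) hP hQ hP2 hQ2 hPQ hc hd
    · have := interior_case m n b a Q P hnm hb hab han (by linarith) hQ hP hQ2 hP2 (by linarith)
        (by linarith) (by linarith)
      linarith

/-! ## Graph part -/

/-- The maximum average degree: the largest value of `2|E(H)|/|V(H)|` over all subgraphs `H`
with at least one vertex. -/
noncomputable def mad {n : ℕ} (G : SimpleGraph (Fin n)) : ℝ :=
  sSup {r | ∃ H : G.Subgraph, H.verts.Nonempty ∧ r = 2 * (H.edgeSet.ncard : ℝ) / H.verts.ncard}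

/-- `f(n)`: the largest value of `Mad(G) * Mad(Gᶜ)` over the graphs `G` on `n` vertices. -/
noncomputable def f (n : ℕ) : ℝ := sSup {r | ∃ G : SimpleGraph (Fin n), r = mad G * mad Gᶜ}

/-- The clique type graph: a clique on the first `x` vertices. -/
def cliqueType (n x : ℕ) : SimpleGraph (Fin n) where
  Adj u v := u ≠ v ∧ u.val < x ∧ v.val < x
  symm := by
    constructor
    rintro u v ⟨h1, h2, h3⟩
    exact ⟨h1.symm, h3, h2⟩
  loopless := by
    constructor
    rintro u ⟨h, _⟩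
    exact h rfl

section graph

variable {n : ℕ}

/-- The pairs inside `A`. -/
def prs (A : Finset (Fin n)) : Finset (Sym2 (Fin n)) := A.offDiag.image (fun p => s(p.1, p.2))

theorem mem_prs {A : Finset (Fin n)} {x y : Fin n} :
    s(x, y) ∈ prs A ↔ x ∈ A ∧ y ∈ A ∧ x ≠ y := by
  unfold prs
  rw [mem_image]
  constructor
  · rintro ⟨⟨u, v⟩, h, h2⟩
    rw [mem_offDiag] at h
    simp only at h h2
    rw [Sym2.eq_iff] at h2
    rcases h2 with ⟨rfl, rfl⟩ | ⟨rfl, rfl⟩
    · exact h
    · exact ⟨h.2.1, h.1, h.2.2.symm⟩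
  · intro h
    exact ⟨(x, y), mem_offDiag.2 h, rfl⟩

theorem card_prs (A : Finset (Fin n)) : 2 * (prs A).card = A.card * (A.card - 1) := by
  have h : (prs A).card = A.card.choose 2 := Sym2.card_image_offDiag A
  rw [h, Nat.choose_two_right, Nat.mul_div_cancel' (Nat.even_mul_pred_self _).two_dvd]

theorem edge_subset {G : SimpleGraph (Fin n)} (H : G.Subgraph) {A : Finset (Fin n)}
    (hA : (A : Set (Fin n)) = H.verts) : H.edgeSet ⊆ (prs A : Set (Sym2 (Fin n))) := by
  intro e he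
  induction e with
  | _ x y =>
    rw [SimpleGraph.Subgraph.mem_edgeSet] at he
    rw [mem_coe, mem_prs, ← mem_coe, ← mem_coe, hA]
    exact ⟨he.fst_mem, he.snd_mem, he.ne⟩

theorem bounds {G : SimpleGraph (Fin n)} (H : G.Subgraph) (H' : Gᶜ.Subgraph) {a b p q : ℕ}
    (ha : H.verts.ncard = a) (hb : H'.verts.ncard = b) (hp : H.edgeSet.ncard = p)
    (hq : H'.edgeSet.ncard = q) :
    2 * p ≤ a * (a - 1) ∧ 2 * q ≤ b * (b - 1) ∧
      2 * (p + q) + (a + b - n) * (a + b - n - 1) ≤ a * (a - 1) + b * (b - 1) := by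
  obtain ⟨A, hA⟩ : ∃ A : Finset (Fin n), (A : Set (Fin n)) = H.verts :=
    ⟨H.verts.toFinite.toFinset, by simp⟩
  obtain ⟨B, hB⟩ : ∃ A : Finset (Fin n), (A : Set (Fin n)) = H'.verts :=
    ⟨H'.verts.toFinite.toFinset, by simp⟩
  have hA' : A.card = a := by rw [← ha, ← hA, Set.ncard_coe_finset]
  have hB' : B.card = b := by rw [← hb, ← hB, Set.ncard_coe_finset]
  have h1 := edge_subset H hA
  have h2 := edge_subset H' hB
  have h3 : p ≤ (prs A).card := by
    rw [← hp, ← Set.ncard_coe_finset]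
    exact Set.ncard_le_ncard h1 (Set.toFinite _)
  have h4 : q ≤ (prs B).card := by
    rw [← hq, ← Set.ncard_coe_finset]
    exact Set.ncard_le_ncard h2 (Set.toFinite _)
  have h5 : p + q ≤ (prs A ∪ prs B).card := by
    rw [← hp, ← hq, ← Set.ncard_coe_finset, ← Set.ncard_union_eq _ (Set.toFinite _) (Set.toFinite _)]
    · apply Set.ncard_le_ncard _ (Set.toFinite _)
      rw [coe_union]
      exact Set.union_subset_union h1 h2
    · rw [Set.disjoint_left]
      intro e he he'
      induction e with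
      | _ x y =>
        have k1 : G.Adj x y := H.adj_sub he
        have k2 : Gᶜ.Adj x y := H'.adj_sub he'
        exact ((SimpleGraph.compl_adj G x y).1 k2).2 k1
  have h6 : prs A ∩ prs B = prs (A ∩ B) := by
    ext e
    induction e with
    | _ x y =>
      rw [mem_inter, mem_prs, mem_prs, mem_prs, mem_inter, mem_inter]
      tauto
  have h7 := card_union_add_card_inter (prs A) (prs B)
  rw [h6] at h7
  have h8 := card_union_add_card_inter A B
  have h9 : (A ∪ B).card ≤ n := (card_le_univ _).trans (by rw [Fintype.card_fin])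
  have c1 := card_prs A
  have c2 := card_prs B
  have c3 := card_prs (A ∩ B)
  rw [hA'] at c1 h8
  rw [hB'] at c2 h8
  have h10 : (a + b - n) * (a + b - n - 1) ≤ (A ∩ B).card * ((A ∩ B).card - 1) :=
    Nat.mul_le_mul (by omega) (by omega)
  refine ⟨by omega, by omega, by omega⟩

/-- The key inequality for pairs of subgraphs. -/
theorem prod_le {m : ℕ} {G : SimpleGraph (Fin (m + 1))} (H : G.Subgraph) (H' : Gᶜ.Subgraph)
    (hH : H.verts.Nonempty) (hH' : H'.verts.Nonempty) :
    (2 * (H.edgeSet.ncard : ℝ) / H.verts.ncard) * (2 * (H'.edgeSet.ncard : ℝ) / H'.verts.ncard) ≤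
      (gg m (opt m) : ℝ) / (m + 1 : ℕ) := by
  obtain ⟨h1, h2, h3⟩ := bounds H H' rfl rfl rfl rfl
  have ha : 1 ≤ H.verts.ncard := (Set.ncard_pos (Set.toFinite _)).2 hH
  have hb : 1 ≤ H'.verts.ncard := (Set.ncard_pos (Set.toFinite _)).2 hH'
  have han : H.verts.ncard ≤ m + 1 := by
    have := Set.ncard_le_ncard (Set.subset_univ H.verts) (Set.toFinite _)
    rwa [Set.ncard_univ, Nat.card_eq_fintype_card, Fintype.card_fin] at this
  have hbn : H'.verts.ncard ≤ m + 1 := by
    have := Set.ncard_le_ncard (Set.subset_univ H'.verts) (Set.toFinite _)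
    rwa [Set.ncard_univ, Nat.card_eq_fintype_card, Fintype.card_fin] at this
  generalize H.verts.ncard = a at h1 h3 ha han ⊢
  generalize H'.verts.ncard = b at h2 h3 hb hbn ⊢
  generalize H.edgeSet.ncard = p at h1 h3 ⊢
  generalize H'.edgeSet.ncard = q at h2 h3 ⊢
  have key := main_ineq m ((m + 1 : ℕ) : ℤ) a b (2 * p) (2 * q) (by push_cast; ring)
    (by exact_mod_cast ha) (by exact_mod_cast hb) (by exact_mod_cast han) (by exact_mod_cast hbn)
    (by positivity) (by positivity)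
    (by zify [ha] at h1; linarith) (by zify [hb] at h2; linarith) (by omega) (by omega)
    (by
      intro hab
      have hab' : m + 1 ≤ a + b := by exact_mod_cast hab
      rcases eq_or_lt_of_le hab' with hab' | hab'
      · rw [← hab', Nat.sub_self, zero_mul, add_zero] at h3
        zify [ha, hb] at h3
        have e : (m : ℤ) + 1 = a + b := by exact_mod_cast hab'
        push_cast
        rw [e]
        nlinarith
      · zify [ha, hb, hab'.le, (by omega : 1 ≤ a + b - (m + 1))] at h3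
        push_cast
        nlinarith)
  have ha0 : (0 : ℝ) < a := by exact_mod_cast ha
  have hb0 : (0 : ℝ) < b := by exact_mod_cast hb
  have hn0 : (0 : ℝ) < ((m + 1 : ℕ) : ℝ) := by exact_mod_cast Nat.succ_pos m
  rw [div_mul_div_comm, div_le_div_iff₀ (mul_pos ha0 hb0) hn0]
  have key' : ((2 * (p : ℤ) * (2 * (q : ℤ)) * ((m + 1 : ℕ) : ℤ) : ℤ) : ℝ) ≤
      ((a : ℤ) * (b : ℤ) * gg m (opt m) : ℤ) := by exact_mod_cast key
  push_cast at key' ⊢
  linarith

theorem mad_set_finite (G : SimpleGraph (Fin n)) : {r : ℝ | ∃ H : G.Subgraph,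
    H.verts.Nonempty ∧ r = 2 * (H.edgeSet.ncard : ℝ) / H.verts.ncard}.Finite := by
  have h : (Set.range (fun p : Fin (Nat.card (Sym2 (Fin n)) + 1) × Fin (n + 1) =>
      2 * ((p.1.val : ℕ) : ℝ) / ((p.2.val : ℕ) : ℝ))).Finite := Set.finite_range _
  refine h.subset ?_
  rintro r ⟨H, -, rfl⟩
  have h1 : H.edgeSet.ncard ≤ Nat.card (Sym2 (Fin n)) := by
    have := Set.ncard_le_ncard (Set.subset_univ H.edgeSet) (Set.toFinite _)
    rwa [Set.ncard_univ] at this
  have h2 : H.verts.ncard ≤ n := by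
    have := Set.ncard_le_ncard (Set.subset_univ H.verts) (Set.toFinite _)
    rwa [Set.ncard_univ, Nat.card_eq_fintype_card, Fintype.card_fin] at this
  exact ⟨(⟨_, Nat.lt_succ_of_le h1⟩, ⟨_, Nat.lt_succ_of_le h2⟩), rfl⟩

theorem mad_mem {m : ℕ} (G : SimpleGraph (Fin (m + 1))) : ∃ H : G.Subgraph,
    H.verts.Nonempty ∧ mad G = 2 * (H.edgeSet.ncard : ℝ) / H.verts.ncard := by
  have h : {r : ℝ | ∃ H : G.Subgraph,
      H.verts.Nonempty ∧ r = 2 * (H.edgeSet.ncard : ℝ) / H.verts.ncard}.Nonempty :=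
    ⟨_, ⊤, ⟨0, trivial⟩, rfl⟩
  exact h.csSup_mem (mad_set_finite G)

theorem le_mad {G : SimpleGraph (Fin n)} (H : G.Subgraph) (hH : H.verts.Nonempty) :
    2 * (H.edgeSet.ncard : ℝ) / H.verts.ncard ≤ mad G :=
  le_csSup (mad_set_finite G).bddAbove ⟨H, hH, rfl⟩

theorem mad_mul_le {m : ℕ} (G : SimpleGraph (Fin (m + 1))) :
    mad G * mad Gᶜ ≤ (gg m (opt m) : ℝ) / (m + 1 : ℕ) := by
  obtain ⟨H, h1, h2⟩ := mad_mem G
  obtain ⟨H', h3, h4⟩ := mad_mem Gᶜ
  rw [h2, h4]
  exact prod_le H H' h1 h3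

/-- The first `x` vertices. -/
def fst (n x : ℕ) : Finset (Fin n) := univ.filter (fun v => v.val < x)

theorem card_fst {n x : ℕ} (hx : x ≤ n) : (fst n x).card = x := by
  unfold fst
  have h : (univ.filter (fun v : Fin n => v.val < x)).map Fin.valEmbedding = range x := by
    ext y
    rw [mem_map, mem_range]
    constructor
    · rintro ⟨v, hv, rfl⟩
      exact (mem_filter.1 hv).2
    · intro hy
      exact ⟨⟨y, by omega⟩, mem_filter.2 ⟨mem_univ _, hy⟩, rfl⟩
  rw [← card_map Fin.valEmbedding, h, card_range]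

theorem clique_mad {n x : ℕ} (hx : 1 ≤ x) (hxn : x ≤ n) :
    (x : ℝ) - 1 ≤ mad (cliqueType n x) := by
  have hv : ((⊤ : (cliqueType n x).Subgraph).induce (fst n x : Set (Fin n))).verts =
      (fst n x : Set (Fin n)) := rfl
  have he : ((⊤ : (cliqueType n x).Subgraph).induce (fst n x : Set (Fin n))).edgeSet =
      (prs (fst n x) : Set (Sym2 (Fin n))) := by
    ext e
    induction e with
    | _ u v =>
      simp only [SimpleGraph.Subgraph.mem_edgeSet, SimpleGraph.Subgraph.induce_adj, mem_coe,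
        mem_prs, SimpleGraph.Subgraph.top_adj]
      constructor
      · rintro ⟨h1, h2, h3⟩
        exact ⟨h1, h2, h3.1⟩
      · rintro ⟨h1, h2, h3⟩
        exact ⟨h1, h2, h3, (mem_filter.1 h1).2, (mem_filter.1 h2).2⟩
  have h := le_mad ((⊤ : (cliqueType n x).Subgraph).induce (fst n x : Set (Fin n)))
    (by rw [hv]; exact ⟨⟨0, by omega⟩, by rw [mem_coe, fst, mem_filter]; exact ⟨mem_univ _, hx⟩⟩)
  rw [he, hv, Set.ncard_coe_finset, Set.ncard_coe_finset, card_fst hxn] at h
  have h2 := card_prs (fst n x)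
  rw [card_fst hxn] at h2
  have h3 : 2 * ((prs (fst n x)).card : ℝ) = x * (x - 1) := by
    have := congrArg (Nat.cast : ℕ → ℝ) h2
    push_cast [Nat.cast_sub hx] at this
    exact this
  rw [h3] at h
  have hx0 : (0 : ℝ) < x := by exact_mod_cast hx
  rwa [mul_div_cancel_left₀ _ hx0.ne'] at h

theorem compl_mad {n x : ℕ} (hx : 1 ≤ x) (hxn : x ≤ n) :
    ((n : ℝ) - x) * (n + x - 1) / n ≤ mad (cliqueType n x)ᶜ := by
  have hn : 1 ≤ n := hx.trans hxn
  have he : (⊤ : (cliqueType n x)ᶜ.Subgraph).edgeSet =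
      ((prs univ \ prs (fst n x) : Finset (Sym2 (Fin n))) : Set (Sym2 (Fin n))) := by
    ext e
    induction e with
    | _ u v =>
      rw [SimpleGraph.Subgraph.mem_edgeSet, SimpleGraph.Subgraph.top_adj, mem_coe, mem_sdiff,
        mem_prs, mem_prs, SimpleGraph.compl_adj]
      constructor
      · rintro ⟨h1, h2⟩
        refine ⟨⟨mem_univ _, mem_univ _, h1⟩, ?_⟩
        rintro ⟨h3, h4, h5⟩
        exact h2 ⟨h5, (mem_filter.1 h3).2, (mem_filter.1 h4).2⟩
      · rintro ⟨⟨-, -, h1⟩, h2⟩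
        refine ⟨h1, ?_⟩
        rintro ⟨h3, h4, h5⟩
        exact h2 ⟨mem_filter.2 ⟨mem_univ _, h4⟩, mem_filter.2 ⟨mem_univ _, h5⟩, h3⟩
  have hsub : prs (fst n x) ⊆ prs univ := by
    intro e he
    induction e with
    | _ u v =>
      rw [mem_prs] at he ⊢
      exact ⟨mem_univ _, mem_univ _, he.2.2⟩
  have h := le_mad (⊤ : (cliqueType n x)ᶜ.Subgraph) ⟨⟨0, by omega⟩, trivial⟩
  have hcard : ((prs univ \ prs (fst n x) : Finset (Sym2 (Fin n))).card : ℝ) =
      (prs (univ : Finset (Fin n))).card - (prs (fst n x)).card := by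
    have := card_sdiff_add_card_eq_card hsub
    have := congrArg (Nat.cast : ℕ → ℝ) this
    push_cast at this
    linarith
  rw [he, SimpleGraph.Subgraph.verts_top, Set.ncard_univ, Nat.card_eq_fintype_card,
    Fintype.card_fin, Set.ncard_coe_finset, hcard] at h
  have h1 := card_prs (univ : Finset (Fin n))
  rw [card_univ, Fintype.card_fin] at h1
  have h2 := card_prs (fst n x)
  rw [card_fst hxn] at h2
  have h3 : 2 * ((prs (fst n x)).card : ℝ) = x * (x - 1) := by
    have := congrArg (Nat.cast : ℕ → ℝ) h2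
    push_cast [Nat.cast_sub hx] at this
    exact this
  have h4 : 2 * ((prs (univ : Finset (Fin n))).card : ℝ) = n * (n - 1) := by
    have := congrArg (Nat.cast : ℕ → ℝ) h1
    push_cast [Nat.cast_sub hn] at this
    exact this
  refine le_trans (le_of_eq ?_) h
  congr 1
  linarith

/-- The value of the clique type graphs. -/
theorem clique_val {m x : ℕ} (hx : 1 ≤ x) (hxn : x ≤ m + 1) :
    ((x : ℝ) - 1) * (((m + 1 : ℕ) : ℝ) - x) * ((m + 1 : ℕ) + x - 1) / (m + 1 : ℕ) ≤
      mad (cliqueType (m + 1) x) * mad (cliqueType (m + 1) x)ᶜ := by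
  have h1 := clique_mad hx hxn
  have h2 := compl_mad hx hxn
  have hx' : (1 : ℝ) ≤ x := by exact_mod_cast hx
  have hxn' : (x : ℝ) ≤ (m + 1 : ℕ) := by exact_mod_cast hxn
  have h3 : (0 : ℝ) ≤ (((m + 1 : ℕ) : ℝ) - x) * ((m + 1 : ℕ) + x - 1) / (m + 1 : ℕ) := by
    apply div_nonneg
    · apply mul_nonneg <;> linarith
    · positivity
  have := mul_le_mul h1 h2 h3 (by linarith)
  refine le_trans (le_of_eq ?_) this
  ring

theorem f_bdd (m : ℕ) : BddAbove {r : ℝ | ∃ G : SimpleGraph (Fin (m + 1)), r = mad G * mad Gᶜ} := by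
  refine ⟨(gg m (opt m) : ℝ) / (m + 1 : ℕ), ?_⟩
  rintro r ⟨G, rfl⟩
  exact mad_mul_le G

theorem f_le (m : ℕ) : f (m + 1) ≤ (gg m (opt m) : ℝ) / (m + 1 : ℕ) := by
  apply csSup_le
  · exact ⟨_, ⊤, rfl⟩
  · rintro r ⟨G, rfl⟩
    exact mad_mul_le G

theorem le_f {m : ℕ} (G : SimpleGraph (Fin (m + 1))) : mad G * mad Gᶜ ≤ f (m + 1) :=
  le_csSup (f_bdd m) ⟨G, rfl⟩

end graph

/-- The optimal order of the clique, minus one. -/
def tOpt (n : ℕ) : ℕ := (1 + Nat.sqrt (12 * (n * (n - 1)) + 1)) / 6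

/-- The exact value of `f(n)`, and a clique type graph attaining it, for every `n ≥ 1`. -/
theorem result (n : ℕ) (hn : 1 ≤ n) :
    f n = (tOpt n : ℝ) * (n - 1 - tOpt n) * (n + tOpt n) / n ∧
    tOpt n + 1 ≤ n ∧
    mad (cliqueType n (tOpt n + 1)) * mad (cliqueType n (tOpt n + 1))ᶜ = f n ∧
    ∀ x : ℕ, 1 ≤ x → x ≤ n → ((x : ℝ) - 1) * (n - x) * (n + x - 1) / n ≤ f n := by
  obtain ⟨m, rfl⟩ : ∃ m, n = m + 1 := ⟨n - 1, by omega⟩
  have ht : tOpt (m + 1) = opt m := by
    unfold tOpt opt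
    rw [Nat.add_sub_cancel, Nat.mul_comm (m + 1) m]
  have hle := opt_le m
  have hval := clique_val (m := m) (x := opt m + 1) (by omega) (by omega)
  have hup := f_le m
  have hf := le_f (cliqueType (m + 1) (opt m + 1))
  have e : (gg m (opt m) : ℝ) / (m + 1 : ℕ) = (((opt m + 1 : ℕ) : ℝ) - 1) *
      (((m + 1 : ℕ) : ℝ) - (opt m + 1 : ℕ)) * ((m + 1 : ℕ) + (opt m + 1 : ℕ) - 1) /
        (m + 1 : ℕ) := by
    unfold gg
    push_cast
    ring
  rw [ht]
  have hfe : f (m + 1) = (gg m (opt m) : ℝ) / (m + 1 : ℕ) :=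
    le_antisymm hup (by rw [e]; exact hval.trans hf)
  refine ⟨?_, by omega, ?_, ?_⟩
  · rw [hfe]
    unfold gg
    push_cast
    ring
  · apply le_antisymm hf
    rw [hfe, e]
    exact hval
  · intro x hx hxn
    exact (clique_val hx hxn).trans (le_f _)

end Pool.Agent.Results.MP_0f9677_co.ExactProduct
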